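import Pool.Agent.J4H26.KP.Q

/-!
# Project KP (helper26): the indicator functions of invariant sets satisfy `CentK`
-/

set_option autoImplicit false

namespace Pool.Agent.J4H17.KP

open Finset Filter Real
open Pool.Agent.J4H39 (T)
open Pool.Agent.J4H26.PC (Iv cc Cent InvS ct fR kS S_CENT)
open Pool.Agent.J4H26.KP

theorem T_sign {s : ℤ} (hs : s = 1 ∨ s = -1) (n : ℤ) : 0 < s * T n ↔ 0 < s * n := by
  unfold T
  rcases hs with rfl | rfl
  · rw [one_mul, one_mul]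
    split_ifs with h <;> omega
  · split_ifs with h <;> omega

theorem invS_inter {K : ℕ} {s : ℤ} {R : Fin K → Set ℤ} (h : ∀ i, InvS s (R i)) (B : Finset (Fin K)) :
    InvS s {n | ∀ i ∈ B, n ∈ R i} := by
  intro n hn
  show (∀ i ∈ B, n ∈ R i) ↔ ∀ i ∈ B, T n ∈ R i
  exact forall_congr' (fun i => forall_congr' (fun _ => h i n hn))

open Classical in
theorem prod_gR {K : ℕ} (s : ℤ) (R : Fin K → Set ℤ) {B : Finset (Fin K)} (hB : B.Nonempty) (n : ℤ) :
    ∏ i ∈ B, gR s (R i) n = if 0 < s * n ∧ ∀ i ∈ B, n ∈ R i then 1 else 0 := by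
  split_ifs with h
  · apply prod_eq_one
    intro i hi
    unfold gR
    rw [if_pos ⟨h.1, h.2 i hi⟩]
  · by_cases h0 : 0 < s * n
    · have : ∃ i ∈ B, n ∉ R i := by
        by_contra hc
        push Not at hc
        exact h ⟨h0, hc⟩
      obtain ⟨i, hi, hn⟩ := this
      apply prod_eq_zero hi
      unfold gR
      rw [if_neg (fun h => hn h.2)]
    · obtain ⟨i, hi⟩ := hB
      apply prod_eq_zero hi
      unfold gR
      rw [if_neg (fun h => h0 h.1)]

/-- the difference of the two normalizations is supported on the integers which are not of sign `s` -/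
theorem diff_eq {s : ℤ} (R : Set ℤ) (δ : ℝ) (f : ℤ → ℝ) (hf : ∀ n, 0 < s * n → n ∈ R → f n = 1)
    (hf' : ∀ n, ¬ (0 < s * n ∧ n ∈ R) → f n = 0) (n : ℤ) :
    (f n - δ) / 2 = fR s R δ n / 2 + (if 0 < s * n then 0 else -δ / 2) := by
  unfold fR
  by_cases h : 0 < s * n
  · rw [if_pos h, if_pos h]
    by_cases h' : n ∈ R
    · rw [if_pos h', hf n h h']; ring
    · rw [if_neg h', hf' n (fun hh => h' hh.2)]; ring
  · rw [if_neg h, if_neg h, hf' n (fun hh => h hh.1)]; ring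

/-- at most one integer of the window has the wrong sign -/
theorem wrong_le {s : ℤ} (hs : s = 1 ∨ s = -1) {X x y : ℝ} (hx : kS s * X ≤ x) (hy : y ≤ kS s * X + X) (c : ℝ) :
    |∑ n ∈ Finset.Ico ⌈x⌉ ⌈y⌉, (if 0 < s * n then 0 else c)| ≤ |c| := by
  have hsub : ∀ n ∈ Finset.Ico ⌈x⌉ ⌈y⌉, ¬ 0 < s * n → n = 0 := by
    intro n hn h
    rw [Finset.mem_Ico] at hn
    rcases hs with rfl | rfl
    · unfold kS at hx
      rw [if_pos rfl, zero_mul] at hx
      have h1 : (0 : ℤ) ≤ ⌈x⌉ := Int.ceil_nonneg hx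
      omega
    · unfold kS at hy
      rw [if_neg (by norm_num)] at hy
      have h1 : ⌈y⌉ ≤ 0 := Int.ceil_le.2 (by push_cast; linarith)
      omega
  have h2 : ∑ n ∈ Finset.Ico ⌈x⌉ ⌈y⌉, (if 0 < s * n then 0 else c) =
      if (0 : ℤ) ∈ Finset.Ico ⌈x⌉ ⌈y⌉ then c else 0 := by
    rw [← Finset.sum_ite_eq' (Finset.Ico ⌈x⌉ ⌈y⌉) (0 : ℤ) (fun _ => c)]
    apply sum_congr rfl
    intro n hn
    by_cases h : 0 < s * n
    · rw [if_pos h, if_neg]
      rintro rfl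
      simp at h
    · rw [if_neg h, if_pos (hsub n hn h)]
  rw [h2]
  split_ifs
  · exact le_rfl
  · rw [abs_zero]; exact abs_nonneg c

theorem cent_half {s : ℤ} (hs : s = 1 ∨ s = -1) {ψ : ℝ → ℝ} {R : Set ℤ} {δ : ℝ} (h0 : 0 ≤ δ) (h1 : δ ≤ 1)
    (hR : InvS s R) (hC : Cent ψ (fR s R δ) (kS s) (δ * (1 - δ))) (f : ℤ → ℝ)
    (hf : ∀ n, 0 < s * n → n ∈ R → f n = 1) (hf' : ∀ n, ¬ (0 < s * n ∧ n ∈ R) → f n = 0) :
    Iv f ∧ Cent (fun X => |ψ X| + 1 / X) (fun n => (f n - δ) / 2) (kS s) (δ * (1 - δ) / 4) := by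
  have hIv : Iv f := by
    constructor
    · intro n
      by_cases h : 0 < s * n ∧ n ∈ R
      · rw [hf n h.1 h.2, hf (T n) ((T_sign hs n).2 h.1) ((hR n h.1).1 h.2)]
      · rw [hf' n h, hf' (T n)]
        rintro ⟨h2, h3⟩
        have h4 := (T_sign hs n).1 h2
        exact h ⟨h4, (hR n h4).2 h3⟩
    · intro n
      by_cases h : 0 < s * n ∧ n ∈ R
      · rw [hf n h.1 h.2]; simp
      · rw [hf' n h]; simp
  have hfd := diff_eq R δ f hf hf'
  have hδ : |-δ / 2| ≤ 1 / 2 := by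
    rw [abs_le]; constructor <;> linarith
  refine ⟨hIv, ⟨⟨?_, ?_⟩, hC.kp, ?_, ?_, ?_, ?_⟩⟩
  · intro n
    rw [hIv.inv]
  · intro n
    by_cases h : 0 < s * n ∧ n ∈ R
    · rw [hf n h.1 h.2, abs_le]; constructor <;> linarith
    · rw [hf' n h, abs_le]; constructor <;> linarith
  · have : 0 ≤ δ * (1 - δ) := mul_nonneg h0 (by linarith)
    linarith
  · have : δ * (1 - δ) ≤ 1 := by nlinarith
    linarith
  · intro X x y hX hx hxy hy
    have hX0 : 0 < X := by linarith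
    have e1 : ∑ n ∈ Finset.Ico ⌈x⌉ ⌈y⌉, (f n - δ) / 2 =
        (∑ n ∈ Finset.Ico ⌈x⌉ ⌈y⌉, fR s R δ n) / 2 +
          ∑ n ∈ Finset.Ico ⌈x⌉ ⌈y⌉, (if 0 < s * n then 0 else -δ / 2) := by
      rw [sum_div, ← sum_add_distrib]
      exact sum_congr rfl (fun n _ => hfd n)
    rw [e1]
    have h2 := hC.mean X x y hX hx hxy hy
    have h3 := wrong_le hs hx hy (-δ / 2)
    have h4 : ψ X * X ≤ |ψ X| * X := mul_le_mul_of_nonneg_right (le_abs_self _) hX0.le
    have h5 := abs_add_le ((∑ n ∈ Finset.Ico ⌈x⌉ ⌈y⌉, fR s R δ n) / 2)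
      (∑ n ∈ Finset.Ico ⌈x⌉ ⌈y⌉, (if 0 < s * n then 0 else -δ / 2))
    have h6 : |(∑ n ∈ Finset.Ico ⌈x⌉ ⌈y⌉, fR s R δ n) / 2| = |∑ n ∈ Finset.Ico ⌈x⌉ ⌈y⌉, fR s R δ n| / 2 := by
      rw [abs_div, abs_two]
    have h7 : (|ψ X| + 1 / X) * X = |ψ X| * X + 1 := by field_simp
    have h8 : 0 ≤ |ψ X| * X := by positivity
    rw [h7]
    linarith [abs_nonneg (∑ n ∈ Finset.Ico ⌈x⌉ ⌈y⌉, fR s R δ n)]
  · intro X hX
    have hX0 : 0 < X := by linarith
    have h2 := hC.sq X hX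
    unfold cc at h2 ⊢
    simp only [pow_zero, one_mul, add_zero] at h2 ⊢
    rw [max_eq_left (by linarith : (1 : ℝ) ≤ X)] at h2 ⊢
    have e1 : ∑ n ∈ Finset.Ico ⌈kS s * X⌉ ⌈kS s * X + X⌉, (f n - δ) / 2 * ((f n - δ) / 2) =
        (∑ n ∈ Finset.Ico ⌈kS s * X⌉ ⌈kS s * X + X⌉, fR s R δ n * fR s R δ n) / 4 +
          ∑ n ∈ Finset.Ico ⌈kS s * X⌉ ⌈kS s * X + X⌉, (if 0 < s * n then 0 else δ ^ 2 / 4) := by
      rw [sum_div, ← sum_add_distrib]
      apply sum_congr rfl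
      intro n _
      rw [hfd n]
      by_cases h : 0 < s * n
      · rw [if_pos h, if_pos h]; ring
      · rw [if_neg h, if_neg h]
        have : fR s R δ n = 0 := by unfold fR; rw [if_neg h]
        rw [this]; ring
    have h3 := wrong_le hs (le_refl (kS s * X)) (le_refl (kS s * X + X)) (δ ^ 2 / 4)
    have h3' : |δ ^ 2 / 4| ≤ 1 := by
      rw [abs_le]; constructor <;> nlinarith
    rw [e1]
    set A := ∑ n ∈ Finset.Ico ⌈kS s * X⌉ ⌈kS s * X + X⌉, fR s R δ n * fR s R δ n with hA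
    set W := ∑ n ∈ Finset.Ico ⌈kS s * X⌉ ⌈kS s * X + X⌉, (if 0 < s * n then (0 : ℝ) else δ ^ 2 / 4) with hW
    have e2 : (A / 4 + W) / X - δ * (1 - δ) / 4 = (A / X - δ * (1 - δ)) / 4 + W / X := by ring
    rw [e2]
    refine (abs_add_le _ _).trans ?_
    have h5 : |(A / X - δ * (1 - δ)) / 4| ≤ |ψ X| := by
      rw [abs_div]
      have : |(4 : ℝ)| = 4 := by norm_num
      rw [this]
      have := le_abs_self (ψ X)
      have h9 := abs_nonneg (A / X - δ * (1 - δ))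
      linarith [abs_nonneg (ψ X)]
    have h6 : |W / X| ≤ 1 / X := by
      rw [abs_div, abs_of_pos hX0]
      exact div_le_div_of_nonneg_right (h3.trans h3') hX0.le
    linarith

theorem t_CENTK : S_CENT → S_CENTK := by
  intro hcent
  obtain ⟨ψ, hψ, hall⟩ := hcent
  refine ⟨fun X => |ψ X| + 1 / X, ?_, ?_⟩
  · have h1 : Tendsto (fun X : ℝ => |ψ X|) atTop (nhds 0) := by
      have := hψ.abs
      rwa [abs_zero] at this
    have h2 : Tendsto (fun X : ℝ => 1 / X) atTop (nhds 0) := by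
      simpa only [one_div] using tendsto_inv_atTop_zero
    have := h1.add h2
    rwa [add_zero] at this
  · intro K s hs R hR
    choose m hm0 hm1 hmt hmC using fun B : Finset (Fin K) => hall s hs {n | ∀ i ∈ B, n ∈ R i} (invS_inter hR B)
    refine ⟨m, hmt, ?_⟩
    intro B hB
    have h := cent_half hs (hm0 B) (hm1 B) (invS_inter hR B) (hmC B) (fun n => ∏ i ∈ B, gR s (R i) n)
      (fun n hn hR' => by
        rw [prod_gR s R hB n]
        exact if_pos ⟨hn, hR'⟩)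
      (fun n hn => by
        rw [prod_gR s R hB n]
        exact if_neg hn)
    exact ⟨h.1, by rw [abs_of_nonneg (hm0 B)]; exact hm1 B, _, h.2⟩

end Pool.Agent.J4H17.KP
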