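import Pool.Agent.J4H26.KP.Q

/-!
# Project KP (helper26): the pattern of the mergings changes only when two forms merge
-/

set_option autoImplicit false

namespace Pool.Agent.J4H17.KP

open Finset Filter Real
open Pool.Agent.J4H39 Pool.Agent.J4H26.KP

/-- two of the labels, at the same time -/
theorem pair_zero_iff {a b : ℕ} (hab : b ≤ a) (t : ℕ) (y : ℤ) :
    rn stP t ((a : ℤ), 0) y = rn stP t ((b : ℤ), 0) y ↔ rn stP t ((a : ℤ) - b, 0) (3 ^ b * y + 0) = (0, 0) := by
  have h1 := rel_nat a 0 y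
  have h2 := rel_nat b 0 y
  have h3 : Rel ((a : ℤ) - b, 0) (3 ^ b * y + 0) (3 ^ a * y + 0) := by
    have h4 := rel_nat (a - b) 0 (3 ^ b * y + 0)
    rw [show (((a - b : ℕ) : ℤ)) = (a : ℤ) - b by push_cast [hab]; ring] at h4
    have h5 : (3 : ℤ) ^ (a - b) * (3 ^ b * y + 0) + 0 = 3 ^ a * y + 0 := by
      have : (3 : ℤ) ^ a = 3 ^ (a - b) * 3 ^ b := by rw [← pow_add]; congr 1; omega
      rw [this]; ring
    rwa [h5] at h4
  rw [pat_iff h1 h2 t]
  constructor
  · rintro ⟨e1, e2⟩
    refine rn_of_merge h3 e2.symm ?_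
    simp only at e1 ⊢
    omega
  · intro h
    obtain ⟨e1, e2⟩ := merge_of_rn h3 h
    simp only at e2 ⊢
    exact ⟨by omega, e1.symm⟩

theorem pb_pair_le {a b : ℕ} (hab : b ≤ a) (t : ℕ) :
    pb t (fun y => rn stP t ((a : ℤ), 0) y ≠ rn stP t ((b : ℤ), 0) y) = ns t ((a : ℤ) - b, 0) := by
  rw [pb_congr (fun y => not_congr (pair_zero_iff hab t y))]
  unfold ns
  exact pb_affine (per_ns t ((a : ℤ) - b, 0)) (pow3_odd b) 0

theorem pb_pair (a b : ℕ) (t : ℕ) :
    pb t (fun y => rn stP t ((a : ℤ), 0) y ≠ rn stP t ((b : ℤ), 0) y) = ns t ((a : ℤ) - b, 0) := by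
  rcases le_total b a with h | h
  · exact pb_pair_le h t
  · rw [pb_congr (fun y => ne_comm), pb_pair_le h t, ← ns_sw]
    congr 1
    unfold sw
    simp

theorem per_pair (a b : ℕ) (t : ℕ) :
    Per t (fun y => rn stP t ((a : ℤ), 0) y ≠ rn stP t ((b : ℤ), 0) y) := by
  intro x u
  simp only
  rw [per_rn stP _ (le_refl t) x u, per_rn stP _ (le_refl t) x u]

theorem mP_abs {K : ℕ} {m : Finset (Fin K) → ℝ} (hm : ∀ B, |m B| ≤ 1) (s : Fin K → ℤ × ℤ) : |mP m s| ≤ 1 := by
  classical
  unfold mP mR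
  rw [abs_prod]
  exact prod_le_one (fun _ _ => abs_nonneg _) (fun B _ => hm B)

theorem mP_congr {K : ℕ} (m : Finset (Fin K) → ℝ) {s s' : Fin K → ℤ × ℤ} (h : ∀ i j, s i = s j ↔ s' i = s' j) :
    mP m s = mP m s' := by
  unfold mP
  congr 1
  funext i j
  exact propext (h i j)

open Classical in
theorem t_PAT : S_PAT := by
  intro K t t' htt m hm D
  set st : Fin K → ℤ × ℤ := fun i => ((D i : ℤ), 0) with hst
  have hper : Per t (fun y => mP m (rn stK t st y)) := (per_rn stK st (le_refl t)).comp (mP m)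
  rw [← ex_per htt hper]
  have hpers : ∀ (i j : Fin K) (y : ℤ), rn stP t (st i) y = rn stP t (st j) y →
      rn stP t' (st i) y = rn stP t' (st j) y := by
    intro i j y h
    obtain ⟨d, rfl⟩ := Nat.exists_eq_add_of_le htt
    rw [rn_comp, rn_comp, h]
  have key : ∀ y : ℤ, |mP m (rn stK t st y) - mP m (rn stK t' st y)| ≤
      2 * ∑ i, ∑ j, ((if rn stP t (st i) y ≠ rn stP t (st j) y then (1 : ℝ) else 0) +
        (-1) * (if rn stP t' (st i) y ≠ rn stP t' (st j) y then (1 : ℝ) else 0)) := by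
    intro y
    have hnn : ∀ i j : Fin K, 0 ≤ ((if rn stP t (st i) y ≠ rn stP t (st j) y then (1 : ℝ) else 0) +
        (-1) * (if rn stP t' (st i) y ≠ rn stP t' (st j) y then (1 : ℝ) else 0)) := by
      intro i j
      have := hpers i j y
      split_ifs with h1 h2 h2
      · norm_num
      · norm_num
      · exact absurd (this (not_not.1 h1)) h2
      · norm_num
    by_cases hc : ∀ i j, rn stK t st y i = rn stK t st y j ↔ rn stK t' st y i = rn stK t' st y j
    · rw [mP_congr m hc, sub_self, abs_zero]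
      exact mul_nonneg (by norm_num) (sum_nonneg (fun i _ => sum_nonneg (fun j _ => hnn i j)))
    · push Not at hc
      obtain ⟨i, j, hij⟩ := hc
      simp only [rn_stK_apply] at hij
      have h1 : rn stP t (st i) y ≠ rn stP t (st j) y ∧ rn stP t' (st i) y = rn stP t' (st j) y := by
        rcases hij with ⟨h1, h2⟩ | ⟨h1, h2⟩
        · exact absurd (hpers i j y h1) h2
        · exact ⟨h1, h2⟩
      have h2 : (1 : ℝ) ≤ ∑ i, ∑ j, ((if rn stP t (st i) y ≠ rn stP t (st j) y then (1 : ℝ) else 0) +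
        (-1) * (if rn stP t' (st i) y ≠ rn stP t' (st j) y then (1 : ℝ) else 0)) := by
        refine le_trans ?_ (single_le_sum (f := fun i => ∑ j, ((if rn stP t (st i) y ≠ rn stP t (st j) y then (1 : ℝ) else 0) +
          (-1) * (if rn stP t' (st i) y ≠ rn stP t' (st j) y then (1 : ℝ) else 0)))
          (fun i _ => sum_nonneg (fun j _ => hnn i j)) (mem_univ i))
        refine le_trans ?_ (single_le_sum (f := fun j => ((if rn stP t (st i) y ≠ rn stP t (st j) y then (1 : ℝ) else 0) +
          (-1) * (if rn stP t' (st i) y ≠ rn stP t' (st j) y then (1 : ℝ) else 0)))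
          (fun j _ => hnn i j) (mem_univ j))
        rw [if_pos h1.1, if_neg (not_not.2 h1.2)]
        norm_num
      have h3 := mP_abs hm (rn stK t st y)
      have h4 := mP_abs hm (rn stK t' st y)
      have h5 := abs_sub (mP m (rn stK t st y)) (mP m (rn stK t' st y))
      linarith
  have hsub : ex t' (fun y => mP m (rn stK t st y)) - ex t' (fun y => mP m (rn stK t' st y)) =
      ex t' (fun y => mP m (rn stK t st y) - mP m (rn stK t' st y)) := by
    have : (fun y => mP m (rn stK t st y) - mP m (rn stK t' st y)) =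
      fun y => mP m (rn stK t st y) + (-1) * mP m (rn stK t' st y) := by funext y; ring
    rw [this, ex_add, ex_mul]; ring
  rw [hsub]
  have habs : |ex t' (fun y => mP m (rn stK t st y) - mP m (rn stK t' st y))| ≤
      ex t' (fun y => |mP m (rn stK t st y) - mP m (rn stK t' st y)|) := by
    rw [abs_le]
    constructor
    · have : ex t' (fun y => (-1) * |mP m (rn stK t st y) - mP m (rn stK t' st y)|) ≤
        ex t' (fun y => mP m (rn stK t st y) - mP m (rn stK t' st y)) :=
        ex_mono (fun y => by have := neg_abs_le (mP m (rn stK t st y) - mP m (rn stK t' st y)); linarith)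
      rw [ex_mul] at this
      linarith
    · exact ex_mono (fun y => le_abs_self _)
  refine habs.trans ((ex_mono key).trans (le_of_eq ?_))
  rw [ex_mul]
  congr 1
  rw [ex_sum]
  apply sum_congr rfl
  intro i _
  rw [ex_sum]
  apply sum_congr rfl
  intro j _
  rw [ex_add, ex_mul]
  have e1 : ex t' (fun y => if rn stP t (st i) y ≠ rn stP t (st j) y then (1 : ℝ) else 0) =
      ns t ((D i : ℤ) - D j, 0) := by
    rw [← pb_pair (D i) (D j) t, ← pb_per htt (per_pair (D i) (D j) t)]
    unfold pb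
    exact ex_congr (fun y => by congr)
  have e2 : ex t' (fun y => if rn stP t' (st i) y ≠ rn stP t' (st j) y then (1 : ℝ) else 0) =
      ns t' ((D i : ℤ) - D j, 0) := by
    rw [← pb_pair (D i) (D j) t']
    unfold pb
    exact ex_congr (fun y => by congr)
  rw [e1, e2]
  ring

end Pool.Agent.J4H17.KP
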